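import Pool.Agent.Y282.RB.Stm

/-!
# The Pochhammer quotient is at most `n ^ (1 - 2 / p) * (p - 1)`
-/

set_option autoImplicit false

namespace Pool.Agent.Y163.BP.Poch

open Pool.Agent.Y282.RB

/-- one factor -/
lemma step (n : ℕ) (hn : 1 ≤ n) (σ : ℝ) (h0 : 0 < σ) (h1 : σ ≤ 1 / 2) :
    ((n : ℝ) + 1 - σ) / ((n : ℝ) + σ) ≤ (((n : ℝ) + 1) / n) ^ (1 - 2 * σ) := by
  have hn1 : (1 : ℝ) ≤ n := by exact_mod_cast hn
  set a : ℝ := 2 * n + 1 with ha
  set t : ℝ := 1 - 2 * σ with ht
  have ha0 : 0 < a := by rw [ha]; linarith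
  have ht0 : 0 ≤ t := by rw [ht]; linarith
  have ht1 : t < 1 := by rw [ht]; linarith
  have hta : t / a < 1 := by rw [div_lt_one ha0]; linarith
  have hta0 : 0 ≤ t / a := div_nonneg ht0 ha0.le
  have h1a : 1 / a < 1 := by rw [div_lt_one ha0, ha]; linarith
  have h1a0 : 0 < 1 / a := by positivity
  have H1 := Real.hasSum_log_sub_log_of_abs_lt_one (x := t / a) (by rw [abs_of_nonneg hta0]; exact hta)
  have H2 := (Real.hasSum_log_sub_log_of_abs_lt_one (x := 1 / a)
    (by rw [abs_of_nonneg h1a0.le]; exact h1a)).mul_left t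
  have H3 := hasSum_le (fun k => by
    have h3 : (t / a) ^ (2 * k + 1) ≤ t * (1 / a) ^ (2 * k + 1) := by
      rw [div_eq_mul_one_div, mul_pow]
      refine mul_le_mul_of_nonneg_right ?_ (by positivity)
      calc t ^ (2 * k + 1) = t ^ (2 * k) * t := pow_succ t _
        _ ≤ 1 * t := by
          refine mul_le_mul_of_nonneg_right (pow_le_one₀ ht0 ht1.le) ht0
        _ = t := one_mul t
    have h4 : (0 : ℝ) ≤ 2 * (1 / (2 * (k : ℝ) + 1)) := by positivity
    calc 2 * (1 / (2 * (k : ℝ) + 1)) * (t / a) ^ (2 * k + 1)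
        ≤ 2 * (1 / (2 * (k : ℝ) + 1)) * (t * (1 / a) ^ (2 * k + 1)) :=
          mul_le_mul_of_nonneg_left h3 h4
      _ = t * (2 * (1 / (2 * (k : ℝ) + 1)) * (1 / a) ^ (2 * k + 1)) := by ring) H1 H2
  have hd : 0 < (n : ℝ) + σ := by linarith
  have hN : 0 < (n : ℝ) + 1 - σ := by linarith
  have e1 : Real.log (1 + t / a) - Real.log (1 - t / a) =
      Real.log (((n : ℝ) + 1 - σ) / ((n : ℝ) + σ)) := by
    have h5 : (0 : ℝ) < 1 - t / a := by linarith
    rw [← Real.log_div (by positivity) h5.ne']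
    congr 1
    rw [div_eq_div_iff h5.ne' hd.ne']
    field_simp
    rw [ha, ht]
    ring
  have e2 : Real.log (1 + 1 / a) - Real.log (1 - 1 / a) = Real.log (((n : ℝ) + 1) / n) := by
    have h5 : (0 : ℝ) < 1 - 1 / a := by linarith
    rw [← Real.log_div (by positivity) h5.ne']
    congr 1
    rw [div_eq_div_iff h5.ne' (by linarith : (0:ℝ) < n).ne']
    field_simp
    rw [ha]
    ring
  rw [e1, e2] at H3
  rw [← Real.log_le_log_iff (by positivity) (by positivity), Real.log_rpow (by positivity)]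
  exact H3

/-- **The quotient of the Pochhammer symbols is at most `n ^ (1 - 2 / p) * (p - 1)`.** -/
theorem le (n : ℕ) (hn : 1 ≤ n) (p : ℝ) (hp : 2 ≤ p) :
    Cn p n ≤ (n : ℝ) ^ (1 - 2 / p) * (p - 1) := by
  have hp0 : 0 < p := by linarith
  have hσ : 1 / p ≤ 1 / 2 := one_div_le_one_div_of_le (by norm_num) hp
  have hσ0 : 0 < 1 / p := by positivity
  induction n, hn using Nat.le_induction with
  | base =>
    unfold Cn
    rw [Finset.prod_range_one]
    simp only [Nat.cast_zero, zero_add, Nat.cast_one, Real.one_rpow, one_mul]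
    apply le_of_eq
    field_simp
  | succ n hn ih =>
    have hn1 : (1 : ℝ) ≤ n := by exact_mod_cast hn
    have e : Cn p (n + 1) = Cn p n * (((n : ℝ) + 1 - 1 / p) / ((n : ℝ) + 1 / p)) :=
      Finset.prod_range_succ _ _
    have h1 := step n hn (1 / p) hσ0 hσ
    have h2 : 0 ≤ Cn p n := Finset.prod_nonneg fun j _ => by
      have : (0 : ℝ) ≤ j := Nat.cast_nonneg j
      refine div_nonneg (by linarith) (by linarith)
    rw [e]
    calc Cn p n * (((n : ℝ) + 1 - 1 / p) / ((n : ℝ) + 1 / p))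
        ≤ ((n : ℝ) ^ (1 - 2 / p) * (p - 1)) * ((((n : ℝ) + 1) / n) ^ (1 - 2 * (1 / p))) := by
          refine mul_le_mul ih h1 (div_nonneg (by linarith) (by linarith)) ?_
          exact mul_nonneg (by positivity) (by linarith)
      _ = ((n + 1 : ℕ) : ℝ) ^ (1 - 2 / p) * (p - 1) := by
          rw [show 1 - 2 * (1 / p) = 1 - 2 / p by ring, Real.div_rpow (by positivity) (by positivity)]
          push_cast
          have : (n : ℝ) ^ (1 - 2 / p) ≠ 0 := by positivity
          field_simp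

end Pool.Agent.Y163.BP.Poch
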